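import Pool.Agent.Helper578.JD.Defs
import Pool.Agent.Helper750.DC.Base

set_option autoImplicit false

/-!
Theories of computable structures (with a computable universe) and the iterates of the jump.
The languages `Lang`, the formulas `Fml` and their Goedel numbers `Fml.code` are those of
`Pool.Agent.Helper750.DC`, the jump is that of `Pool.Agent.Helper578.JD`.
-/

namespace Pool.Agent.TH742.OM

open Pool.Agent.Helper750.DC (Lang Fml)
open Pool.Agent.Helper578.JD (jump)

/-- A structure whose universe is a nonempty set of natural numbers. Only the values of the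
relations and functions on tuples of elements of the universe of the right length matter. -/
structure Str where
  dom : Set ℕ
  ne : dom.Nonempty
  R : ℕ → List ℕ → Prop
  F : ℕ → List ℕ → ℕ
  F_dom : ∀ i xs, (∀ x ∈ xs, x ∈ dom) → F i xs ∈ dom

/-- The structure is computable: its universe is computable, and its relations and functions are
uniformly computable on the universe. -/
def IsComputableStr (L : Lang) (A : Str) : Prop :=
  ComputablePred (· ∈ A.dom) ∧
  (∃ d : ℕ × List ℕ → Bool, Computable d ∧
    ∀ i xs, L.rel i = some xs.length → (∀ x ∈ xs, x ∈ A.dom) → (d (i, xs) = true ↔ A.R i xs)) ∧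
  ∃ e : ℕ × List ℕ → ℕ, Computable e ∧
    ∀ i xs, L.fn i = some xs.length → (∀ x ∈ xs, x ∈ A.dom) → e (i, xs) = A.F i xs

/-- `φ` is a formula of the language `L`. -/
def InLang (L : Lang) : Fml → Prop
  | .rel i vs => L.rel i = some vs.length
  | .fn i vs _ => L.fn i = some vs.length
  | .eq _ _ => True
  | .not φ => InLang L φ
  | .and φ ψ => InLang L φ ∧ InLang L ψ
  | .ex _ φ => InLang L φ

/-- `v` occurs free in the formula. -/
def Free : Fml → ℕ → Prop
  | .rel _ vs, v => v ∈ vs
  | .fn _ vs w, v => v ∈ vs ∨ v = w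
  | .eq u w, v => v = u ∨ v = w
  | .not φ, v => Free φ v
  | .and φ ψ, v => Free φ v ∨ Free ψ v
  | .ex u φ, v => Free φ v ∧ v ≠ u

/-- `φ` is a sentence of the language `L`. -/
def IsSent (L : Lang) (φ : Fml) : Prop := InLang L φ ∧ ∀ v, ¬ Free φ v

/-- Satisfaction of a formula in `A` under the assignment `x`. -/
def Sat (A : Str) : Fml → (ℕ → ℕ) → Prop
  | .rel i vs, x => A.R i (vs.map x)
  | .fn i vs w, x => A.F i (vs.map x) = x w
  | .eq v w, x => x v = x w
  | .not φ, x => ¬ Sat A φ x
  | .and φ ψ, x => Sat A φ x ∧ Sat A ψ x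
  | .ex v φ, x => ∃ a ∈ A.dom, Sat A φ (Function.update x v a)

/-- `φ` is true in `A` under all assignments. -/
def True' (A : Str) (φ : Fml) : Prop := ∀ x : ℕ → ℕ, (∀ i, x i ∈ A.dom) → Sat A φ x

/-- `T` is a complete `L`-theory: a set of `L`-sentences which, for every `L`-sentence `φ`,
contains exactly one of `φ` and `¬ φ`. -/
def IsCompleteTheory (L : Lang) (T : Set Fml) : Prop :=
  (∀ φ ∈ T, IsSent L φ) ∧ ∀ φ, IsSent L φ → (φ ∉ T ↔ Fml.not φ ∈ T)

/-- `A` is a model of `T`. -/
def IsModel (T : Set Fml) (A : Str) : Prop := ∀ φ ∈ T, True' A φ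

/-- `f` restricts to an isomorphism from `A` onto `B`. -/
def IsIso (L : Lang) (A B : Str) (f : ℕ → ℕ) : Prop :=
  Set.BijOn f A.dom B.dom ∧
  (∀ i xs, L.rel i = some xs.length → (∀ x ∈ xs, x ∈ A.dom) → (A.R i xs ↔ B.R i (xs.map f))) ∧
  ∀ i xs, L.fn i = some xs.length → (∀ x ∈ xs, x ∈ A.dom) → f (A.F i xs) = B.F i (xs.map f)

/-- `T` is countably categorical: it has exactly one countable model up to isomorphism. -/
def CountablyCategorical (L : Lang) (T : Set Fml) : Prop :=
  (∃ A, IsModel T A) ∧ ∀ A B, IsModel T A → IsModel T B → ∃ f, IsIso L A B f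

/-- The set of Goedel numbers of the sentences of `T`. -/
def codes (T : Set Fml) : Set ℕ := {n | ∃ φ ∈ T, φ.code = n}

/-- The characteristic function of a set. -/
noncomputable def chi (A : Set ℕ) : ℕ → ℕ :=
  open Classical in fun n => if n ∈ A then 1 else 0

/-- The Turing degree of a set of natural numbers. -/
noncomputable def deg (A : Set ℕ) : TuringDegree :=
  toAntisymmetrization TuringReducible (chi A : ℕ →. ℕ)

/-- The `n`-th jump `0^(n)` of the empty set. -/
def zeroJump (n : ℕ) : Set ℕ := jump^[n] ∅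

/-- The `ω`-jump `0^(ω)` of the empty set: the set of all pairs `(n, x)` with `x ∈ 0^(n)`. -/
def zeroOmega : Set ℕ := {m | m.unpair.2 ∈ zeroJump m.unpair.1}

end Pool.Agent.TH742.OM
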