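import Pool.Agent.Helper578.JD.Exist

set_option autoImplicit false

/-!
A set `X` computable from `Z` such that every set which is computable from `X` and many-one
reducible to `Z` is computable.
-/

namespace Pool.Agent.TH742.OM

open Encodable Pool.Agent.Helper578.JD Pool.Agent.Helper578.JD.Oracle Pool.Agent.Helper578.JD.Defs
open Pool.Agent.Helper578.JD.RE
open Nat.Partrec (Code)

variable {Z : Set ℕ}

/-- a splitting above `p`: the programs `s.unpair.1` and `s.unpair.2.unpair.1` give contradictory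
answers for the number `t.1` with the information `t.2.1` and `t.2.2` -/
def Spt (s : ℕ) (p : Info) (t : ℕ × Info × Info) : Prop :=
  (Cons (app p t.2.1) ∧ W s.unpair.1 (encode (t.1, t.2.1))) ∧
    (Cons (app p t.2.2) ∧ W s.unpair.2.unpair.1 (encode (t.1, t.2.2)))

theorem app_comp {α : Type} [Primcodable α] {f g : α → Info} (hf : Computable f)
    (hg : Computable g) : Computable fun a => app (f a) (g a) := by
  unfold app
  fun_prop

theorem Spt_re : REPred fun x : (ℕ × Info) × (ℕ × Info × Info) => Spt x.1.1 x.1.2 x.2 := by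
  unfold Spt
  refine RE.and (RE.and ?_ ?_) (RE.and ?_ ?_)
  · exact cons_re (app_comp (f := fun x : (ℕ × Info) × (ℕ × Info × Info) => x.1.2)
      (g := fun x => x.2.2.1) (by fun_prop) (by fun_prop))
  · exact RE.comp W_re (f := fun x : (ℕ × Info) × (ℕ × Info × Info) =>
      (x.1.1.unpair.1, encode (x.2.1, x.2.2.1))) (by fun_prop)
  · exact cons_re (app_comp (f := fun x : (ℕ × Info) × (ℕ × Info × Info) => x.1.2)
      (g := fun x => x.2.2.2) (by fun_prop) (by fun_prop))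
  · exact RE.comp W_re (f := fun x : (ℕ × Info) × (ℕ × Info × Info) =>
      (x.1.1.unpair.2.unpair.1, encode (x.2.1, x.2.2.2))) (by fun_prop)

/-- a c.e. predicate on `ℕ × Info` and its complement are enumerable in `Z` if the halting problem
is computable from `Z` -/
theorem both_of_re {α : Type} [Primcodable α] {P : α → Prop} (hP : REPred P)
    (hZ : Red (jump ∅) Z) : REIn Z P ∧ REIn Z fun a => ¬ P a := by
  obtain ⟨f, hf, h⟩ := REIn_iff_jump.1 (REIn.of_re (A := ∅) hP)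
  have h1 : REIn Z fun n => n ∈ jump ∅ := (Red_iff.1 hZ).1
  have h2 : REIn Z fun n => n ∉ jump ∅ := (Red_iff.1 hZ).2
  exact ⟨(h1.comp hf).of_eq fun a => (h a).symm, (h2.comp hf).of_eq fun a => not_congr (h a).symm⟩

/-- value of the many-one reduction with index `m` -/
def Val (Z : Set ℕ) (m n : ℕ) : Prop :=
  ∃ y, y ∈ (Denumerable.ofNat Code m).eval n ∧ y ∈ Z

theorem eval_re : REPred fun x : (ℕ × ℕ) × ℕ => x.2 ∈ (Denumerable.ofNat Code x.1.1).eval x.1.2 := by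
  have h1 : Computable fun x : (ℕ × Code) × ℕ => (Code.evaln x.1.1 x.1.2 x.2) :=
    Code.primrec_evaln.to_comp
  refine RE.re_of_proj (fun (x : (ℕ × ℕ) × ℕ) k =>
    decide (Code.evaln k (Denumerable.ofNat Code x.1.1) x.1.2 = some x.2)) ?_ ?_
  · refine cdecide (cp_eq ?_ (by fun_prop))
    have h2 : Computable fun x : ((ℕ × ℕ) × ℕ) × ℕ => Denumerable.ofNat Code x.1.1.1 :=
      (Computable.ofNat Code).comp (by fun_prop)
    exact h1.comp (g := fun x : ((ℕ × ℕ) × ℕ) × ℕ =>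
      ((x.2, Denumerable.ofNat Code x.1.1.1), x.1.1.2))
      (((by fun_prop : Computable fun x : ((ℕ × ℕ) × ℕ) × ℕ => x.2).pair h2).pair (by fun_prop))
  · intro x
    rw [Code.evaln_complete]
    simp

theorem Val_both (hZ : Red (jump ∅) Z) : REIn Z (fun x : ℕ × ℕ => Val Z x.1 x.2) ∧
    REIn Z fun x : ℕ × ℕ => ¬ Val Z x.1 x.2 := by
  have h0 := both_of_re (Z := Z) eval_re hZ
  have hd : REPred fun x : ℕ × ℕ => ∃ y, y ∈ (Denumerable.ofNat Code x.1).eval x.2 :=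
    RE.ex (p := fun (x : ℕ × ℕ) (y : ℕ) => y ∈ (Denumerable.ofNat Code x.1).eval x.2) eval_re
  have h1 := (both_of_re (Z := Z) hd hZ).2
  constructor
  · refine REIn.ex (S := fun (x : ℕ × ℕ) (y : ℕ) =>
      y ∈ (Denumerable.ofNat Code x.1).eval x.2 ∧ y ∈ Z) ?_
    exact REIn.and h0.1 (REIn.mem (by fun_prop))
  · have h2 : REIn Z fun x : ℕ × ℕ => (¬ ∃ y, y ∈ (Denumerable.ofNat Code x.1).eval x.2) ∨
        ∃ y, y ∈ (Denumerable.ofNat Code x.1).eval x.2 ∧ y ∉ Z := by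
      refine REIn.or h1 (REIn.ex (S := fun (x : ℕ × ℕ) (y : ℕ) =>
        y ∈ (Denumerable.ofNat Code x.1).eval x.2 ∧ y ∉ Z) ?_)
      exact REIn.and h0.1 (REIn.not_mem (by fun_prop))
    refine h2.of_eq fun x => ?_
    unfold Val
    constructor
    · rintro (h3 | ⟨y, hy, hyZ⟩) ⟨z, hz, hzZ⟩
      · exact h3 ⟨z, hz⟩
      · exact hyZ (Part.mem_unique hz hy ▸ hzZ)
    · intro h3
      by_cases h4 : ∃ y, y ∈ (Denumerable.ofNat Code x.1).eval x.2
      · obtain ⟨y, hy⟩ := h4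
        exact Or.inr ⟨y, hy, fun hyZ => h3 ⟨y, hy, hyZ⟩⟩
      · exact Or.inl h4

/-- the first part of a step, with a selector `G` for the splittings -/
def S1 (Z : Set ℕ) (G : ℕ × Info → ℕ × Info × Info → Prop) (s : ℕ) (p u : Info) : Prop :=
  (∃ t : ℕ × Info × Info, G (s, p) t ∧
    ((Val Z s.unpair.2.unpair.2 t.1 ∧ u = app p t.2.2) ∨
      (¬ Val Z s.unpair.2.unpair.2 t.1 ∧ u = app p t.2.1))) ∨
  ((¬ ∃ t, Spt s p t) ∧ u = p)

/-- the second part: `X` is not the `s`-th c.e. set -/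
def S2 (s : ℕ) (u v : Info) : Prop :=
  ∃ x : ℕ, ((x ∉ u.1 ∧ x ∉ u.2) ∧ ∀ y < x, y ∈ u.1 ∨ y ∈ u.2) ∧
    ((¬ W s x ∧ v = (x :: u.1, u.2)) ∨ (W s x ∧ v = (u.1, x :: u.2)))

/-- the step relation -/
def Sp (Z : Set ℕ) (G : ℕ × Info → ℕ × Info × Info → Prop) (s : ℕ) (p p' : Info) : Prop :=
  ∃ u v : Info, (S1 Z G s p u ∧ S2 s u v) ∧ Dc s v p'

theorem exists_fresh (u : Info) : ∃ x, (x ∉ u.1 ∧ x ∉ u.2) ∧ ∀ y < x, y ∈ u.1 ∨ y ∈ u.2 := by
  classical
  have h : ∃ x, x ∉ u.1 ∧ x ∉ u.2 := by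
    obtain ⟨x, hx⟩ := Infinite.exists_notMem_finset (u.1 ++ u.2).toFinset
    refine ⟨x, ?_⟩
    rw [List.mem_toFinset, List.mem_append, not_or] at hx
    exact hx
  refine ⟨Nat.find h, Nat.find_spec h, fun y hy => ?_⟩
  have := Nat.find_min h hy
  tauto

theorem fresh_uniq {u : Info} {x x' : ℕ} (h : (x ∉ u.1 ∧ x ∉ u.2) ∧ ∀ y < x, y ∈ u.1 ∨ y ∈ u.2)
    (h' : (x' ∉ u.1 ∧ x' ∉ u.2) ∧ ∀ y < x', y ∈ u.1 ∨ y ∈ u.2) : x = x' := by
  rcases Nat.lt_trichotomy x x' with h1 | h1 | h1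
  · have := h'.2 x h1; tauto
  · exact h1
  · have := h.2 x' h1; tauto

theorem S2_ex (s : ℕ) (u : Info) : ∃ v, S2 s u v := by
  obtain ⟨x, hx⟩ := exists_fresh u
  by_cases h : W s x
  · exact ⟨_, x, hx, Or.inr ⟨h, rfl⟩⟩
  · exact ⟨_, x, hx, Or.inl ⟨h, rfl⟩⟩

theorem S2_uniq {s : ℕ} {u v v' : Info} (h : S2 s u v) (h' : S2 s u v') : v = v' := by
  obtain ⟨x, hx, h⟩ := h
  obtain ⟨x', hx', h'⟩ := h'
  have := fresh_uniq hx hx'
  subst this
  rcases h with ⟨h1, rfl⟩ | ⟨h1, rfl⟩ <;> rcases h' with ⟨h2, rfl⟩ | ⟨h2, rfl⟩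
  · rfl
  · exact absurd h2 h1
  · exact absurd h1 h2
  · rfl

theorem S2_spec {s : ℕ} {u v : Info} (h : S2 s u v) (hu : Cons u) :
    Cons v ∧ (∀ x ∈ u.1, x ∈ v.1) ∧ (∀ x ∈ u.2, x ∈ v.2) ∧
      ∃ x, (x ∈ v.1 ∧ ¬ W s x) ∨ (x ∈ v.2 ∧ W s x) := by
  obtain ⟨x, ⟨⟨h1, h2⟩, -⟩, ⟨h3, rfl⟩ | ⟨h3, rfl⟩⟩ := h
  · refine ⟨?_, fun y hy => List.mem_cons_of_mem _ hy, fun y hy => hy,
      x, Or.inl ⟨List.mem_cons_self, h3⟩⟩
    intro y hy hy'
    rcases List.mem_cons.1 hy with rfl | hy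
    · exact h2 hy'
    · exact hu y hy hy'
  · refine ⟨?_, fun y hy => hy, fun y hy => List.mem_cons_of_mem _ hy,
      x, Or.inr ⟨List.mem_cons_self, h3⟩⟩
    intro y hy hy'
    rcases List.mem_cons.1 hy' with rfl | hy'
    · exact h1 hy
    · exact hu y hy hy'

theorem S2_re (hZ : Red (jump ∅) Z) : REIn Z fun x : ℕ × (Info × Info) => S2 x.1 x.2.1 x.2.2 := by
  have hW := both_of_re (Z := Z) W_re hZ
  unfold S2
  refine REIn.ex (S := fun (z : ℕ × (Info × Info)) (x : ℕ) =>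
    ((x ∉ z.2.1.1 ∧ x ∉ z.2.1.2) ∧ ∀ y < x, y ∈ z.2.1.1 ∨ y ∈ z.2.1.2) ∧
    ((¬ W z.1 x ∧ z.2.2 = (x :: z.2.1.1, z.2.1.2)) ∨
      (W z.1 x ∧ z.2.2 = (z.2.1.1, x :: z.2.1.2)))) ?_
  refine REIn.and (REIn.of_re (RE.and (RE.and (RE.not_mem_list (by fun_prop) (by fun_prop))
    (RE.not_mem_list (by fun_prop) (by fun_prop))) ?_)) (REIn.or (REIn.and ?_ ?_) (REIn.and ?_ ?_))
  · refine RE.all_lt (p := fun (z : (ℕ × (Info × Info)) × ℕ) (y : ℕ) =>
      y ∈ z.1.2.1.1 ∨ y ∈ z.1.2.1.2) ?_ (by fun_prop)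
    exact RE.or (RE.mem_list (by fun_prop) (by fun_prop)) (RE.mem_list (by fun_prop) (by fun_prop))
  · exact hW.2.comp (f := fun z : (ℕ × (Info × Info)) × ℕ => (z.1.1, z.2)) (by fun_prop)
  · exact REIn.of_re (RE.eq (by fun_prop) (by fun_prop))
  · exact hW.1.comp (f := fun z : (ℕ × (Info × Info)) × ℕ => (z.1.1, z.2)) (by fun_prop)
  · exact REIn.of_re (RE.eq (by fun_prop) (by fun_prop))

/-- `G` is a selector for the splittings -/
structure Sel (G : ℕ × Info → ℕ × Info × Info → Prop) : Prop where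
  re : REPred fun x : (ℕ × Info) × (ℕ × Info × Info) => G x.1 x.2
  uniq : ∀ a t t', G a t → G a t' → t = t'
  sound : ∀ a t, G a t → Spt a.1 a.2 t
  ex : ∀ a, (∃ t, Spt a.1 a.2 t) → ∃ t, G a t

theorem exists_sel : ∃ G, Sel G := by
  obtain ⟨f, hf, h1, h2⟩ := RE.uniformize (r := fun (a : ℕ × Info) (t : ℕ × Info × Info) =>
    Spt a.1 a.2 t) Spt_re
  refine ⟨fun a t => t ∈ f a, ⟨?_, fun a t t' h h' => Part.mem_unique h h', fun a t h => h2 a t h,
    fun a h => ?_⟩⟩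
  · obtain ⟨c, hc⟩ := Nat.Partrec.Code.exists_code.1 hf
    have h3 : REPred fun x : (ℕ × Info) × (ℕ × Info × Info) =>
        encode x.2 ∈ c.eval (encode x.1) := by
      have h4 := RE.comp eval_re (f := fun x : (ℕ × Info) × (ℕ × Info × Info) =>
        ((encode c, encode x.1), encode x.2)) (by fun_prop)
      refine h4.of_eq fun x => ?_
      simp only [Denumerable.ofNat_encode]
    refine h3.of_eq fun x => ?_
    rw [hc]
    simp only [encodek, Part.coe_some, Part.bind_some, Part.mem_map_iff]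
    constructor
    · rintro ⟨t, ht, he⟩
      rwa [← encode_injective he]
    · intro h; exact ⟨_, h, rfl⟩
  · have := (h1 a).2 h
    exact Part.dom_iff_mem.1 this

variable {G : ℕ × Info → ℕ × Info × Info → Prop}

theorem S1_re (hZ : Red (jump ∅) Z) (hG : Sel G) :
    REIn Z fun x : ℕ × (Info × Info) => S1 Z G x.1 x.2.1 x.2.2 := by
  have hV := Val_both (Z := Z) hZ
  have hd : REPred fun x : ℕ × Info => ∃ t, Spt x.1 x.2 t :=
    RE.ex (p := fun (x : ℕ × Info) (t : ℕ × Info × Info) => Spt x.1 x.2 t) Spt_re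
  have hn := (both_of_re (Z := Z) hd hZ).2
  have ha : Computable fun x : (ℕ × (Info × Info)) × (ℕ × Info × Info) =>
      app x.1.2.1 x.2.2.2 := app_comp (by fun_prop) (by fun_prop)
  have hb : Computable fun x : (ℕ × (Info × Info)) × (ℕ × Info × Info) =>
      app x.1.2.1 x.2.2.1 := app_comp (by fun_prop) (by fun_prop)
  unfold S1
  refine REIn.or ?_ (REIn.and ?_ (REIn.of_re (RE.eq (by fun_prop) (by fun_prop))))
  · refine REIn.ex (S := fun (x : ℕ × (Info × Info)) (t : ℕ × Info × Info) => G (x.1, x.2.1) t ∧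
      ((Val Z x.1.unpair.2.unpair.2 t.1 ∧ x.2.2 = app x.2.1 t.2.2) ∨
        (¬ Val Z x.1.unpair.2.unpair.2 t.1 ∧ x.2.2 = app x.2.1 t.2.1))) ?_
    refine REIn.and ?_ (REIn.or (REIn.and ?_ (REIn.of_re (RE.eq (by fun_prop) ha)))
      (REIn.and ?_ (REIn.of_re (RE.eq (by fun_prop) hb))))
    · exact REIn.of_re (RE.comp hG.re (f := fun z : (ℕ × (Info × Info)) × (ℕ × Info × Info) =>
        ((z.1.1, z.1.2.1), z.2)) (by fun_prop))
    · exact hV.1.comp (f := fun z : (ℕ × (Info × Info)) × (ℕ × Info × Info) =>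
        (z.1.1.unpair.2.unpair.2, z.2.1)) (by fun_prop)
    · exact hV.2.comp (f := fun z : (ℕ × (Info × Info)) × (ℕ × Info × Info) =>
        (z.1.1.unpair.2.unpair.2, z.2.1)) (by fun_prop)
  · exact hn.comp (f := fun x : ℕ × (Info × Info) => (x.1, x.2.1)) (by fun_prop)

theorem S1_ex (hG : Sel G) (s : ℕ) (p : Info) : ∃ u, S1 Z G s p u := by
  by_cases h : ∃ t, Spt s p t
  · obtain ⟨t, ht⟩ := hG.ex (s, p) h
    by_cases hV : Val Z s.unpair.2.unpair.2 t.1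
    · exact ⟨_, Or.inl ⟨t, ht, Or.inl ⟨hV, rfl⟩⟩⟩
    · exact ⟨_, Or.inl ⟨t, ht, Or.inr ⟨hV, rfl⟩⟩⟩
  · exact ⟨p, Or.inr ⟨h, rfl⟩⟩

theorem S1_uniq (hG : Sel G) {s : ℕ} {p u u' : Info} (h : S1 Z G s p u) (h' : S1 Z G s p u') :
    u = u' := by
  rcases h with ⟨t, ht, h⟩ | ⟨h, rfl⟩ <;> rcases h' with ⟨t', ht', h'⟩ | ⟨h', rfl⟩
  · have := hG.uniq _ _ _ ht ht'
    subst this
    rcases h with ⟨h1, rfl⟩ | ⟨h1, rfl⟩ <;> rcases h' with ⟨h2, rfl⟩ | ⟨h2, rfl⟩ <;>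
      first | rfl | exact absurd h1 h2 | exact absurd h2 h1
  · exact absurd ⟨t, hG.sound _ _ ht⟩ h'
  · exact absurd ⟨t', hG.sound _ _ ht'⟩ h
  · rfl

theorem S1_spec (hG : Sel G) {s : ℕ} {p u : Info} (h : S1 Z G s p u) (hp : Cons p) :
    Cons u ∧ (∀ x ∈ p.1, x ∈ u.1) ∧ (∀ x ∈ p.2, x ∈ u.2) := by
  rcases h with ⟨t, ht, ⟨h1, rfl⟩ | ⟨h1, rfl⟩⟩ | ⟨h, rfl⟩
  · exact ⟨(hG.sound _ _ ht).2.1, fun x hx => List.mem_append_left _ hx,
      fun x hx => List.mem_append_left _ hx⟩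
  · exact ⟨(hG.sound _ _ ht).1.1, fun x hx => List.mem_append_left _ hx,
      fun x hx => List.mem_append_left _ hx⟩
  · exact ⟨hp, fun x hx => hx, fun x hx => hx⟩

theorem Sp_re (hZ : Red (jump ∅) Z) (hG : Sel G) :
    REIn Z fun x : ℕ × (Info × Info) => Sp Z G x.1 x.2.1 x.2.2 := by
  unfold Sp
  refine REIn.ex (S := fun (x : ℕ × (Info × Info)) (u : Info) => ∃ v : Info,
    (S1 Z G x.1 x.2.1 u ∧ S2 x.1 u v) ∧ Dc x.1 v x.2.2) ?_
  refine REIn.ex (S := fun (x : (ℕ × (Info × Info)) × Info) (v : Info) =>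
    (S1 Z G x.1.1 x.1.2.1 x.2 ∧ S2 x.1.1 x.2 v) ∧ Dc x.1.1 v x.1.2.2) ?_
  refine REIn.and (REIn.and ?_ ?_) ?_
  · exact (S1_re hZ hG).comp (f := fun z : ((ℕ × (Info × Info)) × Info) × Info =>
      (z.1.1.1, (z.1.1.2.1, z.1.2))) (by fun_prop)
  · exact (S2_re hZ).comp (f := fun z : ((ℕ × (Info × Info)) × Info) × Info =>
      (z.1.1.1, (z.1.2, z.2))) (by fun_prop)
  · exact REIn.of_re (Dc_re (by fun_prop) (by fun_prop) (by fun_prop))

theorem Sp_ex (hG : Sel G) (s : ℕ) (p : Info) : ∃ p', Sp Z G s p p' := by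
  obtain ⟨u, hu⟩ := S1_ex (Z := Z) hG s p
  obtain ⟨v, hv⟩ := S2_ex s u
  obtain ⟨p', hp'⟩ := Dc_ex s v
  exact ⟨p', u, v, ⟨hu, hv⟩, hp'⟩

theorem Sp_uniq (hG : Sel G) {s : ℕ} {p p' p'' : Info} (h : Sp Z G s p p')
    (h' : Sp Z G s p p'') : p' = p'' := by
  obtain ⟨u, v, ⟨h1, h2⟩, h3⟩ := h
  obtain ⟨u', v', ⟨h1', h2'⟩, h3'⟩ := h'
  have := S1_uniq hG h1 h1'
  subst this
  have := S2_uniq h2 h2'
  subst this
  exact Dc_uniq h3 h3'

/-- There is a set `X` computable from `Z` (an oracle computing the halting problem), not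
computably enumerable, such that every set which is computable from `X` and many-one reducible to
`Z` is computable. -/
theorem diag (hZ : Red (jump ∅) Z) : ∃ X : Set ℕ, Red X Z ∧ ¬ REPred (· ∈ X) ∧
    ∀ (Y : Set ℕ) (f : ℕ → ℕ), Computable f → (∀ n, n ∈ Y ↔ f n ∈ Z) → Red Y X →
      ComputablePred (· ∈ Y) := by
  obtain ⟨G, hG⟩ := exists_sel
  choose nx hnx using Sp_ex (Z := Z) hG
  let P : ℕ → Info := fun s => Nat.rec ([], []) (fun s p => nx s p) s
  have hP : ∀ s, Sp Z G s (P s) (P (s + 1)) := fun s => hnx s (P s)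
  have hgr : REIn Z fun x : ℕ × Info => P x.1 = x.2 :=
    graph_re (Sp_re hZ hG) hP fun s p p' p'' h1 h2 => Sp_uniq hG h1 h2
  have hcons : ∀ s, Cons (P s) := by
    intro s
    induction s with
    | zero => intro x hx; exact absurd hx List.not_mem_nil
    | succ s ih =>
      obtain ⟨u, v, ⟨h1, h2⟩, h3⟩ := hP s
      exact (Dc_spec h3 (S2_spec h2 (S1_spec hG h1 ih).1).1).1
  have hstep : ∀ s, (∀ x ∈ (P s).1, x ∈ (P (s + 1)).1) ∧ (∀ x ∈ (P s).2, x ∈ (P (s + 1)).2) ∧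
      (s ∈ (P (s + 1)).1 ∨ s ∈ (P (s + 1)).2) := by
    intro s
    obtain ⟨u, v, ⟨h1, h2⟩, h3⟩ := hP s
    obtain ⟨a1, a2, a3⟩ := S1_spec hG h1 (hcons s)
    obtain ⟨b1, b2, b3, -⟩ := S2_spec h2 a1
    obtain ⟨c1, c2, c3, c4⟩ := Dc_spec h3 b1
    exact ⟨fun x hx => c2 x (b2 x (a2 x hx)), fun x hx => c3 x (b3 x (a3 x hx)), c4⟩
  have hmono : ∀ s t, s ≤ t → (∀ x ∈ (P s).1, x ∈ (P t).1) ∧ (∀ x ∈ (P s).2, x ∈ (P t).2) := by
    intro s t hst
    induction t, hst using Nat.le_induction with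
    | base => exact ⟨fun x hx => hx, fun x hx => hx⟩
    | succ t _ ih =>
      exact ⟨fun x hx => (hstep t).1 x (ih.1 x hx), fun x hx => (hstep t).2.1 x (ih.2 x hx)⟩
  let X : Set ℕ := {n | n ∈ (P (n + 1)).1}
  have hX : ∀ n, n ∈ X ↔ n ∈ (P (n + 1)).1 := fun n => Iff.rfl
  have hok : ∀ s, Ok X (P s) := by
    intro s
    constructor
    · intro n hn
      rw [hX]
      rcases (hstep n).2.2 with h1 | h1
      · exact h1
      · exfalso
        exact hcons (max s (n + 1)) n ((hmono s _ (le_max_left _ _)).1 n hn)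
          ((hmono (n + 1) _ (le_max_right _ _)).2 n h1)
    · intro n hn h1
      rw [hX] at h1
      exact hcons (max s (n + 1)) n ((hmono (n + 1) _ (le_max_right _ _)).1 n h1)
          ((hmono s _ (le_max_left _ _)).2 n hn)
  have hsub : ∀ {p q : Info}, Ok X q → (∀ x ∈ p.1, x ∈ q.1) → (∀ x ∈ p.2, x ∈ q.2) → Ok X p :=
    fun hq h1 h2 => ⟨fun x hx => hq.1 x (h1 x hx), fun x hx => hq.2 x (h2 x hx)⟩
  refine ⟨X, ?_, ?_, ?_⟩
  · rw [Red_iff]
    constructor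
    · have h1 : REIn Z fun n : ℕ => ∃ x : Info, P (n + 1) = x ∧ n ∈ x.1 := by
        refine REIn.ex (S := fun (n : ℕ) (x : Info) => P (n + 1) = x ∧ n ∈ x.1) ?_
        refine REIn.and (hgr.comp (f := fun y : ℕ × Info => (y.1 + 1, y.2)) (by fun_prop))
          (REIn.of_re (RE.mem_list (by fun_prop) (by fun_prop)))
      refine h1.of_eq fun n => ?_
      rw [hX]
      simp
    · have h1 : REIn Z fun n : ℕ => ∃ x : Info, P (n + 1) = x ∧ n ∉ x.1 := by
        refine REIn.ex (S := fun (n : ℕ) (x : Info) => P (n + 1) = x ∧ n ∉ x.1) ?_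
        refine REIn.and (hgr.comp (f := fun y : ℕ × Info => (y.1 + 1, y.2)) (by fun_prop))
          (REIn.of_re (RE.not_mem_list (by fun_prop) (by fun_prop)))
      refine h1.of_eq fun n => ?_
      rw [hX]
      simp
  · intro hre
    obtain ⟨g, -, hg⟩ := smn (α := Unit) (β := ℕ) (P := fun _ n => n ∈ X)
      (RE.comp hre (f := fun x : Unit × ℕ => x.2) (by fun_prop))
    obtain ⟨u, v, ⟨h1, h2⟩, h3⟩ := hP (g ())
    obtain ⟨a1, a2, a3⟩ := S1_spec hG h1 (hcons _)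
    obtain ⟨b1, b2, b3, x, b4⟩ := S2_spec h2 a1
    obtain ⟨c1, c2, c3, c4⟩ := Dc_spec h3 b1
    have hok' := hok (g () + 1)
    have hg' : W (g ()) x ↔ x ∈ X := by simpa using hg () x
    rcases b4 with ⟨b4, b5⟩ | ⟨b4, b5⟩
    · exact b5 (hg'.2 (hok'.1 x (c2 x b4)))
    · exact hok'.2 x (c3 x b4) (hg'.1 b5)
  · intro Y f hf hY hred
    obtain ⟨⟨R1, hR1, h1⟩, ⟨R0, hR0, h0⟩⟩ := Red_iff.1 hred
    obtain ⟨g1, -, hg1⟩ := smn (α := Unit) (β := ℕ × Info) (P := fun _ x => R1 x.1 x.2)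
      (RE.comp hR1 (f := fun x : Unit × (ℕ × Info) => x.2) (by fun_prop))
    obtain ⟨g0, -, hg0⟩ := smn (α := Unit) (β := ℕ × Info) (P := fun _ x => R0 x.1 x.2)
      (RE.comp hR0 (f := fun x : Unit × (ℕ × Info) => x.2) (by fun_prop))
    obtain ⟨c, hc⟩ := Nat.Partrec.Code.exists_code.1 (Computable.partrec hf)
    set s := Nat.pair (g1 ()) (Nat.pair (g0 ()) (encode c)) with hs
    have hW1 : ∀ n q, W s.unpair.1 (encode (n, q)) ↔ R1 n q := by
      intro n q; rw [hs, Nat.unpair_pair]; exact hg1 () (n, q)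
    have hW0 : ∀ n q, W s.unpair.2.unpair.1 (encode (n, q)) ↔ R0 n q := by
      intro n q; rw [hs, Nat.unpair_pair, Nat.unpair_pair]; exact hg0 () (n, q)
    have hV : ∀ n, Val Z s.unpair.2.unpair.2 n ↔ n ∈ Y := by
      intro n
      rw [hs, Nat.unpair_pair, Nat.unpair_pair, hY]
      unfold Val
      have hcn : (Denumerable.ofNat Code (encode c)).eval n = Part.some (f n) := by
        rw [Denumerable.ofNat_encode]
        have := congrFun hc n
        simpa using this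
      dsimp only
      rw [hcn]
      simp
    have hnos : ¬ ∃ t, Spt s (P s) t := by
      obtain ⟨u, v, ⟨k1, k2⟩, k3⟩ := hP s
      obtain ⟨a1, a2, a3⟩ := S1_spec hG k1 (hcons _)
      obtain ⟨b1, b2, b3, -⟩ := S2_spec k2 a1
      obtain ⟨c1, c2, c3, c4⟩ := Dc_spec k3 b1
      have hu : Ok X u := hsub (hok (s + 1)) (fun x hx => c2 x (b2 x hx))
        (fun x hx => c3 x (b3 x hx))
      rcases k1 with ⟨t, ht, ⟨e1, e2⟩ | ⟨e1, e2⟩⟩ | ⟨e1, e2⟩
      · exfalso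
        have hsp := hG.sound _ _ ht
        have hn : t.1 ∈ Y := (hV _).1 e1
        refine ((h0 t.1).2 ⟨t.2.2, (hW0 _ _).1 hsp.2.2, ?_⟩ : t.1 ∉ Y) hn
        rw [e2] at hu
        exact hsub hu (fun x hx => List.mem_append_right _ hx)
          (fun x hx => List.mem_append_right _ hx)
      · exfalso
        have hsp := hG.sound _ _ ht
        have hn : t.1 ∉ Y := fun h => e1 ((hV _).2 h)
        refine hn ((h1 t.1).2 ⟨t.2.1, (hW1 _ _).1 hsp.1.2, ?_⟩)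
        rw [e2] at hu
        exact hsub hu (fun x hx => List.mem_append_right _ hx)
          (fun x hx => List.mem_append_right _ hx)
      · exact e1
    have key1 : ∀ n, n ∈ Y ↔ ∃ q : Info, Cons (app (P s) q) ∧ R1 n q := by
      intro n
      constructor
      · intro hn
        obtain ⟨q, hq, hqo⟩ := (h1 n).1 hn
        exact ⟨q, okCons (okApp (hok s) hqo), hq⟩
      · rintro ⟨q, hq, hqr⟩
        by_contra hn
        obtain ⟨q', hq', hqo'⟩ := (h0 n).1 hn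
        exact hnos ⟨(n, q, q'), ⟨hq, (hW1 _ _).2 hqr⟩,
          ⟨okCons (okApp (hok s) hqo'), (hW0 _ _).2 hq'⟩⟩
    have key0 : ∀ n, n ∉ Y ↔ ∃ q : Info, Cons (app (P s) q) ∧ R0 n q := by
      intro n
      constructor
      · intro hn
        obtain ⟨q, hq, hqo⟩ := (h0 n).1 hn
        exact ⟨q, okCons (okApp (hok s) hqo), hq⟩
      · rintro ⟨q, hq, hqr⟩ hn
        obtain ⟨q', hq', hqo'⟩ := (h1 n).1 hn
        exact hnos ⟨(n, q', q), ⟨okCons (okApp (hok s) hqo'), (hW1 _ _).2 hq'⟩,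
          ⟨hq, (hW0 _ _).2 hqr⟩⟩
    have hap : Computable fun z : ℕ × Info => app (P s) z.2 :=
      app_comp (by fun_prop) (by fun_prop)
    refine RE.cp_of_re ?_ ?_
    · have : REPred fun n : ℕ => ∃ q : Info, Cons (app (P s) q) ∧ R1 n q := by
        refine RE.ex (p := fun (n : ℕ) (q : Info) => Cons (app (P s) q) ∧ R1 n q) ?_
        exact RE.and (cons_re hap) hR1
      exact this.of_eq fun n => (key1 n).symm
    · have : REPred fun n : ℕ => ∃ q : Info, Cons (app (P s) q) ∧ R0 n q := by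
        refine RE.ex (p := fun (n : ℕ) (q : Info) => Cons (app (P s) q) ∧ R0 n q) ?_
        exact RE.and (cons_re hap) hR0
      exact this.of_eq fun n => (key0 n).symm

end Pool.Agent.TH742.OM
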