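import Pool.Agent.TH742.OM.Theory
import Pool.Agent.TH742.OM.Diag

set_option autoImplicit false

/-!
The degree below `0^(ω)` which does not bound the degree of any undecidable complete theory with a
computable model.
-/

namespace Pool.Agent.TH742.OM

open Encodable Pool.Agent.Helper578.JD Pool.Agent.Helper578.JD.Oracle
open Pool.Agent.Helper578.JD.RE
open Pool.Agent.Helper750.DC (Lang Fml)

theorem chi_eq (A : Set ℕ) : ((chi A : ℕ → ℕ) : ℕ →. ℕ) = Defs.chi A := by
  funext n
  rfl

theorem deg_le_iff {A B : Set ℕ} : deg A ≤ deg B ↔ Red A B := by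
  unfold deg Red
  rw [← chi_eq, ← chi_eq]
  exact Iff.rfl

theorem jump_red_zeroOmega : Red (jump ∅) zeroOmega := by
  have h : ∀ n, n ∈ jump ∅ ↔ Nat.pair 1 n ∈ zeroOmega := by
    intro n
    unfold zeroOmega
    rw [Set.mem_ofPred_eq, Nat.unpair_pair]
    rfl
  rw [Red_iff]
  constructor
  · exact (REIn.mem (A := zeroOmega) (f := fun n : ℕ => Nat.pair 1 n)
      (cnatpair (by fun_prop) (by fun_prop))).of_eq fun n => (h n).symm
  · exact (REIn.not_mem (A := zeroOmega) (f := fun n : ℕ => Nat.pair 1 n)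
      (cnatpair (by fun_prop) (by fun_prop))).of_eq fun n => not_congr (h n).symm

theorem main : ∃ D : Set ℕ, deg D ≤ deg zeroOmega ∧ ¬ ComputablePred (· ∈ D) ∧
    ∀ (L : Lang) (T : Set Fml) (A : Str), L.IsComputable → IsCompleteTheory L T →
      IsComputableStr L A → IsModel T A → deg (codes T) ≤ deg D →
      ComputablePred (· ∈ codes T) := by
  obtain ⟨X, h1, h2, h3⟩ := diag jump_red_zeroOmega
  refine ⟨X, deg_le_iff.2 h1, fun h => h2 h.to_re, ?_⟩
  intro L T A hL hT hc hA hd
  obtain ⟨f, hf, h4⟩ := theory_red hL hT hA hc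
  exact h3 _ f hf h4 (deg_le_iff.1 hd)

theorem computable_of_le {A B : Set ℕ} (h : deg A ≤ deg B) (hB : ComputablePred (· ∈ B)) :
    ComputablePred (· ∈ A) := by
  have h1 := Red_iff.1 (deg_le_iff.1 h)
  have key : ∀ S : ℕ → Prop, REIn B S → REPred S := by
    rintro S ⟨P, hP, h2⟩
    have h3 : REPred fun n => ∃ c : List ℕ × List ℕ, P n c ∧ Ok B c := by
      refine RE.ex (p := fun (n : ℕ) (c : List ℕ × List ℕ) => P n c ∧ Ok B c) ?_
      refine RE.and hP (RE.and ?_ ?_)
      · refine RE.all_mem (p := fun (_ : ℕ × (List ℕ × List ℕ)) (x : ℕ) => x ∈ B)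
          (l := fun x => x.2.1) ?_ (by fun_prop)
        exact RE.comp hB.to_re (f := fun x : (ℕ × (List ℕ × List ℕ)) × ℕ => x.2) (by fun_prop)
      · refine RE.all_mem (p := fun (_ : ℕ × (List ℕ × List ℕ)) (x : ℕ) => x ∉ B)
          (l := fun x => x.2.2) ?_ (by fun_prop)
        exact RE.comp hB.not.to_re (f := fun x : (ℕ × (List ℕ × List ℕ)) × ℕ => x.2) (by fun_prop)
    have h4 : S = fun n => ∃ c : List ℕ × List ℕ, P n c ∧ Ok B c := by
      funext n
      exact propext (h2 n)
    rw [h4]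
    exact h3
  exact cp_of_re (key _ h1.1) (key _ h1.2)

end Pool.Agent.TH742.OM
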