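import Pool.Agent.TH742.OM.Defs
import Pool.Agent.Helper578.JD.Core
import Pool.Agent.Helper750.CT.ThK

set_option autoImplicit false

/-!
The complete theory of a computable structure is many-one reducible to `0^(ω)`.
-/

namespace Pool.Agent.TH742.OM

open Encodable Pool.Agent.Helper578.JD Pool.Agent.Helper578.JD.Oracle Pool.Agent.Helper578.JD.Defs
open Pool.Agent.Helper578.JD.RE
open Nat.Partrec (Code)
open Pool.Agent.Helper750.DC (Lang Fml)
open Pool.Agent.Helper750.DC.FO (num num_code code_num code_surj code_inj)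
open Pool.Agent.Helper750.CT (Th_K_as Th_K_up Th_K_as_up Th_K_cas Th_K_cup Th_K_cmap Th_K_cof)

/-! ### satisfaction given by computable functions -/

/-- satisfaction in the structure given by the functions `m`, `d`, `e` -/
def SatC (m : ℕ → Bool) (d : ℕ × List ℕ → Bool) (e : ℕ × List ℕ → ℕ) : Fml → (ℕ → ℕ) → Prop
  | .rel i vs, x => d (i, vs.map x) = true
  | .fn i vs w, x => e (i, vs.map x) = x w
  | .eq v w, x => x v = x w
  | .not φ, x => ¬ SatC m d e φ x
  | .and φ ψ, x => SatC m d e φ x ∧ SatC m d e ψ x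
  | .ex v φ, x => ∃ a, m a = true ∧ SatC m d e φ (Function.update x v a)

variable {m : ℕ → Bool} {d : ℕ × List ℕ → Bool} {e : ℕ × List ℕ → ℕ}

theorem satC_congr : ∀ (φ : Fml) (x y : ℕ → ℕ), (∀ v, Free φ v → x v = y v) →
    (SatC m d e φ x ↔ SatC m d e φ y) := by
  intro φ
  induction φ with
  | rel i vs =>
    intro x y h
    have : vs.map x = vs.map y := List.map_congr_left fun v hv => h v hv
    simp only [SatC, this]
  | fn i vs w =>
    intro x y h
    have h1 : vs.map x = vs.map y := List.map_congr_left fun v hv => h v (Or.inl hv)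
    have h2 : x w = y w := h w (Or.inr rfl)
    simp only [SatC, h1, h2]
  | eq v w =>
    intro x y h
    have h1 : x v = y v := h v (Or.inl rfl)
    have h2 : x w = y w := h w (Or.inr rfl)
    simp only [SatC, h1, h2]
  | not φ ih =>
    intro x y h
    simp only [SatC, ih x y h]
  | and φ ψ ih1 ih2 =>
    intro x y h
    simp only [SatC, ih1 x y fun v hv => h v (Or.inl hv), ih2 x y fun v hv => h v (Or.inr hv)]
  | ex u φ ih =>
    intro x y h
    simp only [SatC]
    refine exists_congr fun a => and_congr_right fun _ => ih _ _ fun v hv => ?_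
    by_cases hvu : v = u
    · subst hvu; simp
    · rw [Function.update_of_ne hvu, Function.update_of_ne hvu]
      exact h v ⟨hv, hvu⟩

theorem sat_iff_satC {L : Lang} {A : Str} (hm : ∀ a, m a = true ↔ a ∈ A.dom)
    (hd : ∀ i xs, L.rel i = some xs.length → (∀ x ∈ xs, x ∈ A.dom) → (d (i, xs) = true ↔ A.R i xs))
    (he : ∀ i xs, L.fn i = some xs.length → (∀ x ∈ xs, x ∈ A.dom) → e (i, xs) = A.F i xs) :
    ∀ (φ : Fml), InLang L φ → ∀ x : ℕ → ℕ, (∀ i, x i ∈ A.dom) → (Sat A φ x ↔ SatC m d e φ x) := by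
  intro φ
  induction φ with
  | rel i vs =>
    intro h x hx
    simp only [Sat, SatC]
    rw [hd i (vs.map x) (by rw [List.length_map]; exact h)]
    intro y hy
    obtain ⟨v, -, rfl⟩ := List.mem_map.1 hy
    exact hx v
  | fn i vs w =>
    intro h x hx
    simp only [Sat, SatC]
    rw [he i (vs.map x) (by rw [List.length_map]; exact h)]
    intro y hy
    obtain ⟨v, -, rfl⟩ := List.mem_map.1 hy
    exact hx v
  | eq v w =>
    intro h x hx
    simp only [Sat, SatC]
  | not φ ih =>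
    intro h x hx
    simp only [Sat, SatC, ih h x hx]
  | and φ ψ ih1 ih2 =>
    intro h x hx
    simp only [Sat, SatC, ih1 h.1 x hx, ih2 h.2 x hx]
  | ex u φ ih =>
    intro h x hx
    simp only [Sat, SatC]
    refine exists_congr fun a => ?_
    rw [hm]
    refine and_congr_right fun ha => ih h _ fun i => ?_
    by_cases hi : i = u
    · subst hi; simpa using ha
    · rw [Function.update_of_ne hi]; exact hx i

/-! ### quantifier depth -/

/-- depth of a formula -/
def dep : Fml → ℕ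
  | .rel _ _ => 0
  | .fn _ _ _ => 0
  | .eq _ _ => 0
  | .not φ => dep φ + 1
  | .and φ ψ => max (dep φ) (dep ψ) + 1
  | .ex _ φ => dep φ + 1

theorem dep_le : ∀ φ : Fml, dep φ ≤ φ.code := by
  intro φ
  induction φ with
  | rel i vs => exact Nat.zero_le _
  | fn i vs w => exact Nat.zero_le _
  | eq v w => exact Nat.zero_le _
  | not φ ih =>
    have := Nat.add_le_pair 3 φ.code
    simp only [dep, Fml.code]
    omega
  | and φ ψ ih1 ih2 =>
    have := Nat.add_le_pair 4 (Nat.pair φ.code ψ.code)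
    have h4 := Nat.right_le_pair φ.code ψ.code
    have h5 := Nat.left_le_pair φ.code ψ.code
    simp only [dep, Fml.code]
    omega
  | ex v φ ih =>
    have := Nat.add_le_pair (5 + v) φ.code
    simp only [dep, Fml.code]
    omega

/-! ### the uniform reduction -/

/-- the enumeration of the truth predicate -/
def TP (m : ℕ → Bool) (d : ℕ × List ℕ → Bool) (e : ℕ × List ℕ → ℕ)
    (h : ℕ × (ℕ × ℕ × List ℕ) → ℕ) (r : ℕ) (z : (ℕ × ℕ × List ℕ) × Info) : Prop :=
  (z.1.2.1.unpair.1 = 0 ∧ d (z.1.2.1.unpair.2.unpair.1,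
      (Denumerable.ofNat (List ℕ) z.1.2.1.unpair.2.unpair.2).map (Th_K_as z.1.2.2)) = true) ∨
  (z.1.2.1.unpair.1 = 1 ∧ e (z.1.2.1.unpair.2.unpair.1,
      (Denumerable.ofNat (List ℕ) z.1.2.1.unpair.2.unpair.2.unpair.2).map (Th_K_as z.1.2.2)) =
        Th_K_as z.1.2.2 z.1.2.1.unpair.2.unpair.2.unpair.1) ∨
  (z.1.2.1.unpair.1 = 2 ∧ Th_K_as z.1.2.2 z.1.2.1.unpair.2.unpair.1 =
      Th_K_as z.1.2.2 z.1.2.1.unpair.2.unpair.2) ∨
  ((0 < z.1.1 ∧ z.1.2.1.unpair.1 = 3) ∧
      h (r, (z.1.1 - 1, z.1.2.1.unpair.2, z.1.2.2)) ∈ z.2.2) ∨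
  ((0 < z.1.1 ∧ z.1.2.1.unpair.1 = 4) ∧
      (h (r, (z.1.1 - 1, z.1.2.1.unpair.2.unpair.1, z.1.2.2)) ∈ z.2.1 ∧
        h (r, (z.1.1 - 1, z.1.2.1.unpair.2.unpair.2, z.1.2.2)) ∈ z.2.1)) ∨
  ((0 < z.1.1 ∧ 5 ≤ z.1.2.1.unpair.1) ∧ ∃ y : ℕ, m y = true ∧
      h (r, (z.1.1 - 1, z.1.2.1.unpair.2, Th_K_up z.1.2.2 (z.1.2.1.unpair.1 - 5) y)) ∈ z.2.1)

theorem TP_re (hm : Computable m) (hd : Computable d) (he : Computable e)
    {h : ℕ × (ℕ × ℕ × List ℕ) → ℕ} (hh : Computable h) :
    REPred fun x : ℕ × ((ℕ × ℕ × List ℕ) × Info) => TP m d e h x.1 x.2 := by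
  unfold TP
  have c1 : Computable fun x : ℕ × ((ℕ × ℕ × List ℕ) × Info) =>
      (Denumerable.ofNat (List ℕ) x.2.1.2.1.unpair.2.unpair.2).map (Th_K_as x.2.1.2.2) :=
    Th_K_cmap (Th_K_cof (by fun_prop)) (by fun_prop)
  have c2 : Computable fun x : ℕ × ((ℕ × ℕ × List ℕ) × Info) =>
      (Denumerable.ofNat (List ℕ) x.2.1.2.1.unpair.2.unpair.2.unpair.2).map
        (Th_K_as x.2.1.2.2) :=
    Th_K_cmap (Th_K_cof (by fun_prop)) (by fun_prop)
  refine RE.or ?_ (RE.or ?_ (RE.or ?_ (RE.or ?_ (RE.or ?_ ?_))))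
  · refine RE.and (RE.eq (by fun_prop) (by fun_prop)) (RE.eq ?_ (by fun_prop))
    exact hd.comp ((by fun_prop : Computable fun x : ℕ × ((ℕ × ℕ × List ℕ) × Info) =>
      x.2.1.2.1.unpair.2.unpair.1).pair c1)
  · refine RE.and (RE.eq (by fun_prop) (by fun_prop)) (RE.eq ?_
      (Th_K_cas (by fun_prop) (by fun_prop)))
    exact he.comp ((by fun_prop : Computable fun x : ℕ × ((ℕ × ℕ × List ℕ) × Info) =>
      x.2.1.2.1.unpair.2.unpair.1).pair c2)
  · exact RE.and (RE.eq (by fun_prop) (by fun_prop)) (RE.eq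
      (Th_K_cas (by fun_prop) (by fun_prop)) (Th_K_cas (by fun_prop) (by fun_prop)))
  · refine RE.and (RE.and (RE.lt (by fun_prop) (by fun_prop)) (RE.eq (by fun_prop) (by fun_prop)))
      (RE.mem_list ?_ (by fun_prop))
    exact hh.comp (g := fun x : ℕ × ((ℕ × ℕ × List ℕ) × Info) =>
      (x.1, (x.2.1.1 - 1, x.2.1.2.1.unpair.2, x.2.1.2.2))) (by fun_prop)
  · refine RE.and (RE.and (RE.lt (by fun_prop) (by fun_prop)) (RE.eq (by fun_prop) (by fun_prop)))
      (RE.and (RE.mem_list ?_ (by fun_prop)) (RE.mem_list ?_ (by fun_prop)))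
    · exact hh.comp (g := fun x : ℕ × ((ℕ × ℕ × List ℕ) × Info) =>
        (x.1, (x.2.1.1 - 1, x.2.1.2.1.unpair.2.unpair.1, x.2.1.2.2))) (by fun_prop)
    · exact hh.comp (g := fun x : ℕ × ((ℕ × ℕ × List ℕ) × Info) =>
        (x.1, (x.2.1.1 - 1, x.2.1.2.1.unpair.2.unpair.2, x.2.1.2.2))) (by fun_prop)
  · refine RE.and (RE.and (RE.lt (by fun_prop) (by fun_prop)) (RE.le (by fun_prop) (by fun_prop)))
      ?_
    refine RE.ex (p := fun (x : ℕ × ((ℕ × ℕ × List ℕ) × Info)) (y : ℕ) => m y = true ∧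
      h (x.1, (x.2.1.1 - 1, x.2.1.2.1.unpair.2,
        Th_K_up x.2.1.2.2 (x.2.1.2.1.unpair.1 - 5) y)) ∈ x.2.2.1) ?_
    refine RE.and (RE.eq (hm.comp (by fun_prop)) (by fun_prop)) (RE.mem_list ?_ (by fun_prop))
    have c3 : Computable fun x : (ℕ × ((ℕ × ℕ × List ℕ) × Info)) × ℕ =>
        Th_K_up x.1.2.1.2.2 (x.1.2.1.2.1.unpair.1 - 5) x.2 :=
      Th_K_cup (by fun_prop) (by fun_prop) (by fun_prop)
    exact hh.comp ((by fun_prop : Computable fun x : (ℕ × ((ℕ × ℕ × List ℕ) × Info)) × ℕ =>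
      x.1.1).pair ((by fun_prop : Computable fun x : (ℕ × ((ℕ × ℕ × List ℕ) × Info)) × ℕ =>
        x.1.2.1.1 - 1).pair ((by fun_prop : Computable fun x : (ℕ × ((ℕ × ℕ × List ℕ) × Info)) × ℕ =>
          x.1.2.1.2.1.unpair.2).pair c3)))

theorem zeroJump_succ (n : ℕ) : zeroJump (n + 1) = jump (zeroJump n) := by
  unfold zeroJump
  rw [Function.iterate_succ_apply']

/-- Uniformly in `n`, the truth of formulas of depth at most `n` is many-one reducible to
`0^(n+1)`. -/
theorem truth_red (hm : Computable m) (hd : Computable d) (he : Computable e) :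
    ∃ H : ℕ × ℕ × List ℕ → ℕ, Computable H ∧ ∀ n φ, dep φ ≤ n → ∀ as : List ℕ,
      (H (n, φ.code, as) ∈ zeroJump (n + 1) ↔ SatC m d e φ (Th_K_as as)) := by
  obtain ⟨h, hh, hW⟩ := smn (α := ℕ × (ℕ × ℕ × List ℕ)) (β := Info)
    (P := fun x c => W x.1 (encode (x.2, c)))
    (RE.comp W_re (f := fun z : (ℕ × (ℕ × ℕ × List ℕ)) × Info => (z.1.1, encode (z.1.2, z.2)))
      (by fun_prop))
  obtain ⟨r, hr⟩ := recursion (TP_re hm hd he hh)
  refine ⟨fun x => h (r, x), hh.comp (by fun_prop), ?_⟩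
  have key : ∀ (n : ℕ) (c : ℕ) (as : List ℕ), h (r, (n, c, as)) ∈ zeroJump (n + 1) ↔
      ∃ i : Info, Ok (zeroJump n) i ∧ TP m d e h r ((n, c, as), i) := by
    intro n c as
    rw [zeroJump_succ]
    constructor
    · rintro ⟨i, h1, h2⟩
      exact ⟨i, h1, (hr _).1 ((hW _ _).1 h2)⟩
    · rintro ⟨i, h1, h2⟩
      exact ⟨i, h1, (hW _ _).2 ((hr _).2 h2)⟩
  have okn : ∀ A : Set ℕ, Ok A ([], []) := fun A => ⟨fun x hx => by simp at hx,
    fun x hx => by simp at hx⟩
  intro n
  induction n with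
  | zero =>
    intro φ hφ as
    dsimp only
    rw [key]
    cases φ with
    | rel i vs =>
      simp only [Fml.code, TP, Nat.unpair_pair, Denumerable.ofNat_encode, SatC]
      constructor
      · rintro ⟨i, -, h1⟩
        rcases h1 with ⟨-, h1⟩ | ⟨h1, -⟩ | ⟨h1, -⟩ | ⟨⟨h1, -⟩, -⟩ | ⟨⟨h1, -⟩, -⟩ | ⟨⟨h1, -⟩, -⟩
        · exact h1
        all_goals omega
      · intro h1
        exact ⟨([], []), okn _, Or.inl ⟨trivial, h1⟩⟩
    | fn i vs w =>
      simp only [Fml.code, TP, Nat.unpair_pair, Denumerable.ofNat_encode, SatC]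
      constructor
      · rintro ⟨i, -, h1⟩
        rcases h1 with ⟨h1, -⟩ | ⟨-, h1⟩ | ⟨h1, -⟩ | ⟨⟨h1, -⟩, -⟩ | ⟨⟨h1, -⟩, -⟩ | ⟨⟨h1, -⟩, -⟩
        · omega
        · exact h1
        all_goals omega
      · intro h1
        exact ⟨([], []), okn _, Or.inr (Or.inl ⟨trivial, h1⟩)⟩
    | eq v w =>
      simp only [Fml.code, TP, Nat.unpair_pair, SatC]
      constructor
      · rintro ⟨i, -, h1⟩
        rcases h1 with ⟨h1, -⟩ | ⟨h1, -⟩ | ⟨-, h1⟩ | ⟨⟨h1, -⟩, -⟩ | ⟨⟨h1, -⟩, -⟩ | ⟨⟨h1, -⟩, -⟩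
        · omega
        · omega
        · exact h1
        all_goals omega
      · intro h1
        exact ⟨([], []), okn _, Or.inr (Or.inr (Or.inl ⟨trivial, h1⟩))⟩
    | not φ => simp only [dep] at hφ; omega
    | and φ ψ => simp only [dep] at hφ; omega
    | ex v φ => simp only [dep] at hφ; omega
  | succ n ih =>
    intro φ hφ as
    dsimp only at ih ⊢
    rw [key]
    cases φ with
    | rel i vs =>
      simp only [Fml.code, TP, Nat.unpair_pair, Denumerable.ofNat_encode, SatC]
      constructor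
      · rintro ⟨i, -, h1⟩
        rcases h1 with ⟨-, h1⟩ | ⟨h1, -⟩ | ⟨h1, -⟩ | ⟨⟨-, h1⟩, -⟩ | ⟨⟨-, h1⟩, -⟩ | ⟨⟨-, h1⟩, -⟩
        · exact h1
        all_goals omega
      · intro h1
        exact ⟨([], []), okn _, Or.inl ⟨trivial, h1⟩⟩
    | fn i vs w =>
      simp only [Fml.code, TP, Nat.unpair_pair, Denumerable.ofNat_encode, SatC]
      constructor
      · rintro ⟨i, -, h1⟩
        rcases h1 with ⟨h1, -⟩ | ⟨-, h1⟩ | ⟨h1, -⟩ | ⟨⟨-, h1⟩, -⟩ | ⟨⟨-, h1⟩, -⟩ | ⟨⟨-, h1⟩, -⟩
        · omega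
        · exact h1
        all_goals omega
      · intro h1
        exact ⟨([], []), okn _, Or.inr (Or.inl ⟨trivial, h1⟩)⟩
    | eq v w =>
      simp only [Fml.code, TP, Nat.unpair_pair, SatC]
      constructor
      · rintro ⟨i, -, h1⟩
        rcases h1 with ⟨h1, -⟩ | ⟨h1, -⟩ | ⟨-, h1⟩ | ⟨⟨-, h1⟩, -⟩ | ⟨⟨-, h1⟩, -⟩ | ⟨⟨-, h1⟩, -⟩
        · omega
        · omega
        · exact h1
        all_goals omega
      · intro h1
        exact ⟨([], []), okn _, Or.inr (Or.inr (Or.inl ⟨trivial, h1⟩))⟩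
    | not φ =>
      have hφ' : dep φ ≤ n := by simp only [dep] at hφ; omega
      simp only [Fml.code, TP, Nat.unpair_pair, SatC, Nat.add_sub_cancel]
      rw [← ih φ hφ' as]
      constructor
      · rintro ⟨i, hi, h1⟩
        rcases h1 with ⟨h1, -⟩ | ⟨h1, -⟩ | ⟨h1, -⟩ | ⟨-, h1⟩ | ⟨⟨-, h1⟩, -⟩ | ⟨⟨-, h1⟩, -⟩
        · omega
        · omega
        · omega
        · exact hi.2 _ h1
        all_goals omega
      · intro h1
        refine ⟨([], [h (r, (n, φ.code, as))]), ⟨fun x hx => by simp at hx, fun x hx => ?_⟩,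
          Or.inr (Or.inr (Or.inr (Or.inl ⟨⟨by omega, trivial⟩, by simp⟩)))⟩
        rw [List.mem_singleton] at hx
        subst hx
        exact h1
    | and φ ψ =>
      have hφ' : dep φ ≤ n := by simp only [dep] at hφ; omega
      have hψ' : dep ψ ≤ n := by simp only [dep] at hφ; omega
      simp only [Fml.code, TP, Nat.unpair_pair, SatC, Nat.add_sub_cancel]
      rw [← ih φ hφ' as, ← ih ψ hψ' as]
      constructor
      · rintro ⟨i, hi, h1⟩
        rcases h1 with ⟨h1, -⟩ | ⟨h1, -⟩ | ⟨h1, -⟩ | ⟨⟨-, h1⟩, -⟩ | ⟨-, h1⟩ | ⟨⟨-, h1⟩, -⟩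
        · omega
        · omega
        · omega
        · omega
        · exact ⟨hi.1 _ h1.1, hi.1 _ h1.2⟩
        · omega
      · rintro ⟨h1, h2⟩
        refine ⟨([h (r, (n, φ.code, as)), h (r, (n, ψ.code, as))], []), ⟨fun x hx => ?_,
          fun x hx => by simp at hx⟩,
          Or.inr (Or.inr (Or.inr (Or.inr (Or.inl ⟨⟨by omega, trivial⟩, by simp, by simp⟩))))⟩
        rcases List.mem_cons.1 hx with rfl | hx
        · exact h1
        · rw [List.mem_singleton] at hx
          subst hx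
          exact h2
    | ex v φ =>
      have hφ' : dep φ ≤ n := by simp only [dep] at hφ; omega
      simp only [Fml.code, TP, Nat.unpair_pair, SatC, Nat.add_sub_cancel,
        Nat.add_sub_cancel_left]
      constructor
      · rintro ⟨i, hi, h1⟩
        rcases h1 with ⟨h1, -⟩ | ⟨h1, -⟩ | ⟨h1, -⟩ | ⟨⟨-, h1⟩, -⟩ | ⟨⟨-, h1⟩, -⟩ |
          ⟨-, y, hy, h1⟩
        · omega
        · omega
        · omega
        · omega
        · omega
        · refine ⟨y, hy, ?_⟩
          rw [← Th_K_as_up, ← ih φ hφ']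
          exact hi.1 _ h1
      · rintro ⟨y, hy, h1⟩
        rw [← Th_K_as_up, ← ih φ hφ'] at h1
        refine ⟨([h (r, (n, φ.code, Th_K_up as v y))], []), ⟨fun x hx => ?_,
          fun x hx => by simp at hx⟩,
          Or.inr (Or.inr (Or.inr (Or.inr (Or.inr ⟨⟨by omega, by omega⟩, y, hy, by simp⟩))))⟩
        rw [List.mem_singleton] at hx
        subst hx
        exact h1

/-! ### formulas of the language -/

/-- recursion step -/
def ilG (L : Lang) (_ : ℕ) (l : List Bool) : Option Bool :=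
  bif decide (l.length.unpair.1 = 0) then
    some (decide (L.rel l.length.unpair.2.unpair.1 =
      some (Denumerable.ofNat (List ℕ) l.length.unpair.2.unpair.2).length))
  else bif decide (l.length.unpair.1 = 1) then
    some (decide (L.fn l.length.unpair.2.unpair.1 =
      some (Denumerable.ofNat (List ℕ) l.length.unpair.2.unpair.2.unpair.2).length))
  else bif decide (l.length.unpair.1 = 2) then some true
  else bif decide (l.length.unpair.1 = 4) then
    some (((l[l.length.unpair.2.unpair.1]?).getD false) &&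
      ((l[l.length.unpair.2.unpair.2]?).getD false))
  else l[l.length.unpair.2]?

theorem ilG_comp {L : Lang} (hL : L.IsComputable) : Computable₂ (ilG L) := by
  obtain ⟨h1, h2⟩ := hL
  have k : ∀ k : ℕ, Computable fun q : ℕ × List Bool =>
      decide (q.2.length.unpair.1 = k) := fun k => cdecide (cp_eq (by fun_prop) (by fun_prop))
  have a1 : Computable fun q : ℕ × List Bool =>
      decide (L.rel q.2.length.unpair.2.unpair.1 =
      some (Denumerable.ofNat (List ℕ) q.2.length.unpair.2.unpair.2).length) :=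
    cdecide (cp_eq (h1.comp (by fun_prop)) (csome (clength (Th_K_cof (by fun_prop)))))
  have a2 : Computable fun q : ℕ × List Bool =>
      decide (L.fn q.2.length.unpair.2.unpair.1 =
      some (Denumerable.ofNat (List ℕ) q.2.length.unpair.2.unpair.2.unpair.2).length) :=
    cdecide (cp_eq (h2.comp (by fun_prop)) (csome (clength (Th_K_cof (by fun_prop)))))
  have h8 : ∀ {f : ℕ × List Bool → Option Bool}, Computable f →
      Computable fun x => (f x).getD false := fun {f} hf =>
    Computable.option_getD hf (Computable.const false)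
  unfold ilG
  exact ccond (k 0) (csome a1) (ccond (k 1) (csome a2) (ccond (k 2) (by fun_prop)
    (ccond (k 4) (csome (cand (h8 (by fun_prop)) (h8 (by fun_prop)))) (by fun_prop))))

open Classical in
/-- the decision function -/
noncomputable def il (L : Lang) (_ : ℕ) (n : ℕ) : Bool := decide (InLang L (num n))

theorem dec_iff (p : Prop) (i : Decidable p) : p ↔ @decide p i = true := by simp

theorem dec_eq (p : Prop) (i j : Decidable p) : @decide p i = @decide p j := by
  rw [Bool.eq_iff_iff, ← dec_iff, ← dec_iff]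

theorem dec_and (p q : Prop) (i : Decidable p) (j : Decidable q) (k : Decidable (p ∧ q)) :
    (@decide p i && @decide q j) = @decide (p ∧ q) k := by
  rw [Bool.eq_iff_iff, ← dec_iff, Bool.and_eq_true, ← dec_iff, ← dec_iff]

theorem il_comp {L : Lang} (hL : L.IsComputable) : Computable₂ (il L) := by
  classical
  refine Computable.nat_strong_rec (il L) (g := ilG L) (ilG_comp hL) ?_
  intro a n
  have hget : ∀ r, r < n → ((List.range n).map (il L a))[r]? = some (il L a r) := by
    intro r hr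
    rw [List.getElem?_map, List.getElem?_range hr]
    rfl
  obtain ⟨φ, hφ⟩ := code_surj n
  have hn : il L a n = decide (InLang L φ) := by
    unfold il
    rw [← hφ, num_code]
  rw [hn]
  unfold ilG
  simp only [List.length_map, List.length_range]
  cases φ with
  | rel i vs =>
    rw [← hφ]
    simp only [Fml.code, InLang, Nat.unpair_pair, Denumerable.ofNat_encode, decide_true, cond_true]
    congr 1
    rw [Bool.eq_iff_iff]
    simp only [decide_eq_true_eq]
    all_goals exact dec_iff _ _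
  | fn i vs w =>
    rw [← hφ]
    simp [Fml.code, InLang, Nat.unpair_pair, Denumerable.ofNat_encode]
    all_goals exact dec_eq _ _ _
  | eq v w =>
    rw [← hφ]
    simp [Fml.code, InLang]
    all_goals exact (dec_iff _ _).1 trivial
  | not ψ =>
    have h1 : n.unpair = (3, ψ.code) := by rw [← hφ]; simp [Fml.code]
    have h2 : ψ.code < n := by
      have := Nat.add_le_pair 3 ψ.code
      rw [← hφ]
      simp only [Fml.code]
      omega
    have h3 := hget _ h2
    rw [h1]
    simp only [h3]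
    simp [il, InLang]
    all_goals exact dec_eq _ _ _
  | and ψ χ =>
    have h1 : n.unpair = (4, Nat.pair ψ.code χ.code) := by rw [← hφ]; simp [Fml.code]
    have h2 : Nat.pair ψ.code χ.code < n := by
      have := Nat.add_le_pair 4 (Nat.pair ψ.code χ.code)
      rw [← hφ]
      simp only [Fml.code]
      omega
    have h3 := hget _ (lt_of_le_of_lt (Nat.left_le_pair ψ.code χ.code) h2)
    have h4 := hget _ (lt_of_le_of_lt (Nat.right_le_pair ψ.code χ.code) h2)
    rw [h1]
    simp only [Nat.unpair_pair, h3, h4]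
    simp [il, InLang]
    all_goals exact dec_and _ _ _ _ _
  | ex u ψ =>
    have h1 : n.unpair = (5 + u, ψ.code) := by rw [← hφ]; simp [Fml.code]
    have h2 : ψ.code < n := by
      have := Nat.add_le_pair (5 + u) ψ.code
      rw [← hφ]
      simp only [Fml.code]
      omega
    have h3 := hget _ h2
    rw [h1]
    have h5 : ∀ k, k < 5 → ¬ (5 + u = k) := by intro k hk; omega
    simp only [h3, h5 0 (by norm_num), h5 1 (by norm_num), h5 2 (by norm_num),
      h5 4 (by norm_num), decide_false, cond_false]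
    simp [il, InLang]
    all_goals exact dec_eq _ _ _

theorem free_iff : ∀ (φ : Fml) (v : ℕ), Free φ v ↔ Pool.Agent.Helper750.CT.Free φ v := by
  intro φ
  induction φ with
  | rel i vs => intro v; rfl
  | fn i vs w => intro v; rfl
  | eq u w => intro v; rfl
  | not φ ih => intro v; exact ih v
  | and φ ψ ih1 ih2 => intro v; exact or_congr (ih1 v) (ih2 v)
  | ex u φ ih => intro v; exact and_congr_left fun _ => ih v

/-- being a sentence of the language is decidable -/
theorem sent_comp {L : Lang} (hL : L.IsComputable) :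
    ∃ s : ℕ → Bool, Computable s ∧ ∀ φ : Fml, s φ.code = true ↔ IsSent L φ := by
  obtain ⟨s, hs, h⟩ := Pool.Agent.Helper750.CT.Th_K_sent
  refine ⟨fun n => il L 0 n && s n, ?_, fun φ => ?_⟩
  · exact cand ((il_comp hL).comp (Computable.const 0) Computable.id) hs
  · rw [Bool.and_eq_true, h]
    unfold il IsSent Pool.Agent.Helper750.CT.IsSent
    rw [num_code, ← dec_iff]
    refine and_congr_right fun _ => forall_congr' fun v => not_congr (free_iff φ v).symm

/-! ### the theory -/

theorem mem_theory_iff {L : Lang} {T : Set Fml} {A : Str} (hT : IsCompleteTheory L T)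
    (hA : IsModel T A) (φ : Fml) : φ ∈ T ↔ IsSent L φ ∧ True' A φ := by
  constructor
  · intro h; exact ⟨hT.1 φ h, hA φ h⟩
  · rintro ⟨h1, h2⟩
    by_contra h3
    have h4 := hA _ ((hT.2 φ h1).1 h3)
    obtain ⟨a, ha⟩ := A.ne
    exact h4 (fun _ => a) (fun _ => ha) (h2 (fun _ => a) fun _ => ha)

/-- A complete theory with a computable model is many-one reducible to `0^(ω)`. -/
theorem theory_red {L : Lang} {T : Set Fml} {A : Str} (hL : L.IsComputable)
    (hT : IsCompleteTheory L T) (hA : IsModel T A) (hc : IsComputableStr L A) :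
    ∃ f : ℕ → ℕ, Computable f ∧ ∀ n, n ∈ codes T ↔ f n ∈ zeroOmega := by
  obtain ⟨h0, ⟨d, hd, h1⟩, e, he, h2⟩ := hc
  obtain ⟨m, hm, h3⟩ := ComputablePred.computable_iff.1 h0
  have h3' : ∀ a, m a = true ↔ a ∈ A.dom := fun a => by rw [← congrFun h3 a]
  obtain ⟨H, hH, h4⟩ := truth_red hm hd he
  obtain ⟨s, hs, h5⟩ := sent_comp hL
  refine ⟨fun c => bif s c then Nat.pair (c + 1) (H (c, c, [])) else Nat.pair 0 0, ?_, ?_⟩
  · refine ccond hs (cnatpair (by fun_prop) (hH.comp (by fun_prop))) (by fun_prop)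
  · intro n
    obtain ⟨φ, rfl⟩ := code_surj n
    have h6 : φ.code ∈ codes T ↔ φ ∈ T := by
      constructor
      · rintro ⟨ψ, hψ, h⟩; exact code_inj _ _ h ▸ hψ
      · intro h; exact ⟨φ, h, rfl⟩
    rw [h6, mem_theory_iff hT hA, ← h5]
    dsimp only
    cases hsc : s φ.code
    · simp only [cond_false]
      constructor
      · rintro ⟨h, -⟩; simp at h
      · intro h
        unfold zeroOmega at h
        simp [zeroJump] at h
    · simp only [cond_true, true_and]
      have hse := (h5 φ).1 hsc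
      unfold zeroOmega
      rw [Set.mem_ofPred_eq, Nat.unpair_pair]
      dsimp only
      rw [h4 _ φ (dep_le φ)]
      have hany : ∀ x : ℕ → ℕ, SatC m d e φ x ↔ SatC m d e φ (Th_K_as []) := fun x =>
        satC_congr φ _ _ fun v hv => absurd hv (hse.2 v)
      constructor
      · intro h
        obtain ⟨a, ha⟩ := A.ne
        exact (hany _).1 ((sat_iff_satC h3' h1 h2 φ hse.1 (fun _ => a) fun _ => ha).1
          (h _ fun _ => ha))
      · intro h x hx
        exact (sat_iff_satC h3' h1 h2 φ hse.1 x hx).2 ((hany x).2 h)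

end Pool.Agent.TH742.OM
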